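import Pool.Agent.helper24.NR.Spec

set_option autoImplicit false

namespace Pool.Agent.NR

open Finset

open Classical in
theorem AWW : AWW_stmt := by
  intro V F _ _ vs es x y hB w hw
  have hw' : w ≠ x ∧ w ≠ y := by
    unfold WW at hw
    rw [mem_filter] at hw
    exact hw.2
  have mNX : ∀ v, v ∈ NX es x ↔ ∃ f, s(x, v) ∈ es f := by
    intro v
    unfold NX
    rw [mem_filter]
    exact ⟨fun h => h.2, fun h => ⟨mem_univ v, h⟩⟩
  have mFX : ∀ f, f ∈ FX vs x ↔ x ∈ vs f := by
    intro f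
    unfold FX
    rw [mem_filter]
    exact ⟨fun h => h.2, fun h => ⟨mem_univ f, h⟩⟩
  split_ifs with h
  · obtain ⟨f0, hf0⟩ := (mNX w).mp h
    obtain ⟨f, g, hfg, hk⟩ := hB.cfg.two s(x, w) ⟨f0, hf0⟩
    have hf := hB.cfg.ends f x w ((hk f).mpr (Or.inl rfl))
    have hg := hB.cfg.ends g x w ((hk g).mpr (Or.inr rfl))
    have heq : (FX vs x).filter (fun f => w ∈ vs f) = {f, g} := by
      ext k
      rw [mem_filter, mFX, mem_insert, mem_singleton]
      constructor
      · rintro ⟨hx, hwk⟩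
        by_cases hkf : k = f
        · exact Or.inl hkf
        · exact (hk k).mp (hB.cfg.meet2 k f hkf x w hw'.1.symm hx hwk hf.1 hf.2.1)
      · rintro (rfl | rfl)
        · exact ⟨hf.1, hf.2.1⟩
        · exact ⟨hg.1, hg.2.1⟩
    rw [heq]
    exact Finset.card_pair hfg
  · obtain ⟨f, hfx, hfw⟩ := (hB.star w hw'.1 hw'.2).1
    have heq : (FX vs x).filter (fun f => w ∈ vs f) = {f} := by
      ext k
      rw [mem_filter, mFX, mem_singleton]
      constructor
      · rintro ⟨hx, hwk⟩
        by_contra hkf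
        exact h ((mNX w).mpr ⟨k, hB.cfg.meet2 k f hkf x w hw'.1.symm hx hwk hfx hfw⟩)
      · rintro rfl
        exact ⟨hfx, hfw⟩
    rw [heq]
    exact Finset.card_singleton f

end Pool.Agent.NR
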